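import Pool.Agent.MP_ea150c_mp.H49.SpecK

/-! Toric rings over the `p`-adic integers, and elementary shifts. -/

namespace Pool.Agent.MP_ea150c_mp.H45

open Pool.Agent.MP_ea150c_mp.H49

noncomputable section

section Basic
variable {Λ σ : Type} [CommRing Λ] {tor : σ → Bool}

theorem mem_supp {P : (σ → ℤ) → Prop} {z : Tor Λ tor} :
    z ∈ supp tor Λ P ↔ ∀ u : Mon tor, z.coeff u ≠ 0 → P u.1 := Iff.rfl

theorem single_mem_supp {P : (σ → ℤ) → Prop} (u : Mon tor) (c : Λ) (hu : P u.1) :
    (AddMonoidAlgebra.single u c : Tor Λ tor) ∈ supp tor Λ P := by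
  classical
  intro v hv
  rw [AddMonoidAlgebra.coeff_single, Finsupp.single_apply] at hv
  split_ifs at hv with h
  · rwa [← h]
  · exact (hv rfl).elim

theorem supp_ind {P : (σ → ℤ) → Prop} {Q : Tor Λ tor → Prop} {z : Tor Λ tor} (hz : z ∈ supp tor Λ P)
    (h0 : Q 0) (ha : ∀ a b, Q a → Q b → Q (a + b))
    (hs : ∀ (u : Mon tor) (c : Λ), P u.1 → z.coeff u = c → Q (AddMonoidAlgebra.single u c)) : Q z := by
  rw [← AddMonoidAlgebra.sum_coeff_single z]
  exact Finset.sum_induction _ Q ha h0 fun u hu =>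
    hs u _ (hz u (Finsupp.mem_support_iff.1 hu)) rfl

theorem single_eq_smul (u : Mon tor) (c : Λ) :
    (AddMonoidAlgebra.single u c : Tor Λ tor) = c • AddMonoidAlgebra.single u 1 := by
  simp

theorem supp_mul {P Q R : (σ → ℤ) → Prop} (h : ∀ u v, P u → Q v → R (u + v)) {a b : Tor Λ tor}
    (ha : a ∈ supp tor Λ P) (hb : b ∈ supp tor Λ Q) : a * b ∈ supp tor Λ R := by
  refine supp_ind (Q := fun a => a * b ∈ supp tor Λ R) ha (by simp)
    (fun a a' h1 h2 => by rw [add_mul]; exact add_mem h1 h2) fun u c hu _ => ?_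
  refine supp_ind (Q := fun b => AddMonoidAlgebra.single u c * b ∈ supp tor Λ R) hb (by simp)
    (fun a a' h1 h2 => by rw [mul_add]; exact add_mem h1 h2) fun v d hv _ => ?_
  rw [AddMonoidAlgebra.single_mul_single]
  exact single_mem_supp _ _ (h _ _ hu hv)

theorem coeff_natMul (n : ℕ) (a : Tor Λ tor) (u : Mon tor) :
    ((n : Tor Λ tor) * a).coeff u = (n : Λ) * a.coeff u := by
  rw [← nsmul_eq_mul, ← nsmul_eq_mul]; rfl

theorem linOf_single {B : Type} [AddCommGroup B] [Module Λ B] (g : (σ → ℤ) → B) (u : Mon tor)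
    (c : Λ) : linOf tor g (AddMonoidAlgebra.single u c : Tor Λ tor) = c • g u.1 := by
  simp [linOf]

theorem phi0_single (p : ℕ) (u : Mon tor) (c : Λ) :
    phi0 tor Λ p (AddMonoidAlgebra.single u c) = AddMonoidAlgebra.single (p • u) c := by
  simp [phi0]

theorem tmap_single {Λ' : Type} [CommRing Λ'] (f : Λ →+* Λ') (u : Mon tor) (c : Λ) :
    tmap tor f (AddMonoidAlgebra.single u c) = AddMonoidAlgebra.single u (f c) := by
  simp [tmap]

theorem coeff_tmap {Λ' : Type} [CommRing Λ'] (f : Λ →+* Λ') (a : Tor Λ tor) (u : Mon tor) :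
    (tmap tor f a).coeff u = f (a.coeff u) := by
  simp [tmap]

theorem tmap_phi0 {Λ' : Type} [CommRing Λ'] (f : Λ →+* Λ') (p : ℕ) (a : Tor Λ tor) :
    tmap tor f (phi0 tor Λ p a) = phi0 tor Λ' p (tmap tor f a) := by
  induction a using AddMonoidAlgebra.induction_linear with
  | zero => simp
  | add a b ha hb => simp only [map_add, ha, hb]
  | single u c => rw [phi0_single, tmap_single, tmap_single, phi0_single]

end Basic

section Padic
variable {p : ℕ} [Fact p.Prime] {σ : Type} {tor : σ → Bool}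

theorem frob (b : Tor (ZMod p) tor) : phi0 tor (ZMod p) p b = b ^ p := by
  have : CharP (Tor (ZMod p) tor) p :=
    charP_of_injective_algebraMap (algebraMap (ZMod p) (Tor (ZMod p) tor)).injective p
  induction b using AddMonoidAlgebra.induction_linear with
  | zero => rw [map_zero, zero_pow (Fact.out : p.Prime).ne_zero]
  | add a b ha hb => rw [map_add, ha, hb, add_pow_char]
  | single u c => rw [phi0_single, AddMonoidAlgebra.single_pow, ZMod.pow_card]

theorem ker_tmap {P : (σ → ℤ) → Prop} {a : Tor ℤ_[p] tor} (ha : a ∈ supp tor ℤ_[p] P)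
    (h : tmap tor PadicInt.toZMod a = 0) : a ∈ sm (p : ℤ_[p]) (supp tor ℤ_[p] P) := by
  refine supp_ind (Q := fun a => a ∈ sm (p : ℤ_[p]) (supp tor ℤ_[p] P)) ha (zero_mem _)
    (fun _ _ => add_mem) fun u c hu hc => ?_
  have h1 : PadicInt.toZMod c = 0 := by rw [← hc, ← coeff_tmap, h]; rfl
  rw [← RingHom.mem_ker, PadicInt.ker_toZMod, PadicInt.maximalIdeal_eq_span_p,
    Ideal.mem_span_singleton] at h1
  obtain ⟨d, rfl⟩ := h1
  exact ⟨AddMonoidAlgebra.single u d, single_mem_supp u d hu, by simp⟩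

end Padic

theorem s1p : S1p := by
  intro p _ σ _ _ tor
  have hp : (p : ℤ_[p]) ≠ 0 := Nat.cast_ne_zero.2 (Fact.out : p.Prime).ne_zero
  refine ⟨fun a h => ?_, fun a => ?_, fun P a h u hu => ?_, fun P a h => ⟨fun u hu => ?_, ker_tmap h⟩,
    fun P b hb => ?_, frob⟩
  · ext u
    have h1 := coeff_natMul p a u
    rw [h] at h1
    exact (mul_eq_zero.1 h1.symm).resolve_left hp
  · have h1 : tmap tor PadicInt.toZMod (a ^ p - phi0 tor ℤ_[p] p a) = 0 := by
      rw [map_sub, map_pow, tmap_phi0, frob, sub_self]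
    obtain ⟨y, -, hy⟩ := ker_tmap (P := fun _ => True) (fun _ _ => trivial) h1
    have h2 : ∃ y, a ^ p - phi0 tor ℤ_[p] p a = (p : Tor ℤ_[p] tor) * y :=
      ⟨y, by rw [← hy, LinearMap.lsmul_apply, Nat.cast_smul_eq_nsmul, nsmul_eq_mul]⟩
    unfold H49.divp
    rw [dif_pos h2]
    exact h2.choose_spec.symm
  · exact h u (by rw [coeff_natMul]; exact mul_ne_zero hp hu)
  · rw [coeff_tmap] at hu
    exact h u fun h0 => hu (by rw [h0, map_zero])
  · refine supp_ind (Q := fun b => ∃ a ∈ supp tor ℤ_[p] P, tmap tor PadicInt.toZMod a = b) hb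
      ⟨0, zero_mem _, map_zero _⟩ ?_ fun u c hu _ => ?_
    · rintro _ _ ⟨a, ha, rfl⟩ ⟨a', ha', rfl⟩
      exact ⟨a + a', add_mem ha ha', map_add _ _ _⟩
    · obtain ⟨d, rfl⟩ := ZMod.ringHom_surjective (PadicInt.toZMod (p := p)) c
      exact ⟨_, single_mem_supp u d hu, tmap_single _ u d⟩

section Shift
variable {Λ σ : Type} [CommRing Λ] [Fintype σ] [DecidableEq σ] {tor : σ → Bool} {i : σ}

theorem fix_free {s : Tor Λ tor →ₐ[Λ] Tor Λ tor} (hi : tor i = false)
    (hs : ∀ l, l ≠ i → s (tX tor Λ l) = tX tor Λ l) {h : Tor Λ tor}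
    (hh : h ∈ supp tor Λ fun u => u i = 0) : s h = h := by
  have hinv : ∀ l, s (tXi tor Λ l) = tXi tor Λ l := by
    intro l
    cases ht : tor l
    · have : tXi tor Λ l = 0 := by
        unfold tXi monoZ
        rw [dif_neg]
        intro hm
        have := hm l ht
        simp at this
      rw [this, map_zero]
    · have hl : l ≠ i := fun e => by rw [e, hi] at ht; exact Bool.false_ne_true ht
      have e1 := tX_mul_tXi (Λ := Λ) tor l ht
      have e2 : tX tor Λ l * s (tXi tor Λ l) = 1 := by rw [← hs l hl, ← map_mul, e1, map_one]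
      linear_combination tXi tor Λ l * e2 - s (tXi tor Λ l) * e1
  refine supp_ind (Q := fun h => s h = h) hh (map_zero _)
    (fun a b ha hb => by rw [map_add, ha, hb]) fun u c hu _ => ?_
  rw [single_eq_smul, map_smul, mono_eq_prod, map_prod]
  congr 1
  refine Finset.prod_congr rfl fun l _ => ?_
  by_cases hl : l = i
  · subst hl
    simp [hu]
  · rw [map_mul, map_pow, map_pow, hs l hl, hinv]

theorem tX_pow (n : ℕ) : tX tor Λ i ^ n =
    AddMonoidAlgebra.single (n • (⟨Pi.single i 1, single_mem tor i⟩ : Mon tor)) 1 := by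
  rw [tX, monoZ, dif_pos (single_mem tor i), AddMonoidAlgebra.single_pow, one_pow]

theorem pow_mem {h : Tor Λ tor} (k : ℕ) (hh : h ∈ supp tor Λ fun u => u i = 0) :
    tX tor Λ i ^ k * h ∈ supp tor Λ fun u => u i = k := by
  refine supp_mul (P := fun u => u i = k) (fun u v hu hv => ?_) ?_ hh
  · rw [Pi.add_apply, hu, hv, add_zero]
  · rw [tX_pow]
    exact single_mem_supp _ _ (by simp)

omit [Fintype σ] [DecidableEq σ] in
theorem psi0_low {p k : ℕ} (hk : k + 1 < p) {z : Tor Λ tor} (hz : z ∈ supp tor Λ fun u => u i = k) :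
    psi0 tor Λ p z = 0 := by
  refine supp_ind (Q := fun z => psi0 tor Λ p z = 0) hz (map_zero _)
    (fun a b ha hb => by rw [map_add, ha, hb, add_zero]) fun u c hu _ => ?_
  rw [psi0, linOf_single, if_neg, smul_zero]
  intro h
  have h1 := h i
  rw [hu] at h1
  have := Int.le_of_dvd (by omega) h1
  omega

omit [Fintype σ] [DecidableEq σ] in
theorem psi0_top {p k : ℕ} (hk : k + 1 = p) {z : Tor Λ tor} (hz : z ∈ supp tor Λ fun u => u i = k) :
    psi0 tor Λ p z ∈ supp tor Λ fun u => u i = 0 := by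
  refine supp_ind (Q := fun z => psi0 tor Λ p z ∈ supp tor Λ fun u => u i = 0) hz
    (by rw [map_zero]; exact zero_mem _)
    (fun a b ha hb => by rw [map_add]; exact add_mem ha hb) fun u c hu _ => ?_
  rw [psi0, linOf_single]
  refine Submodule.smul_mem _ _ ?_
  split_ifs with h
  · unfold monoZ
    split_ifs with h'
    · refine single_mem_supp _ _ ?_
      have e : (u.1 i + 1) = (p : ℤ) := by rw [hu, ← hk]; push_cast; ring
      change (u.1 i + 1) / p - 1 = 0
      rw [e, Int.ediv_self (by omega), sub_self]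
    · exact zero_mem _
  · exact zero_mem _

theorem mono_split (hi : tor i = false) (u : Mon tor) (c : Λ) : ∃ (n : ℕ) (h : Tor Λ tor),
    h ∈ supp tor Λ (fun u => u i = 0) ∧ AddMonoidAlgebra.single u c = tX tor Λ i ^ n * h := by
  have h0 := u.2 i hi
  refine ⟨(u.1 i).toNat, AddMonoidAlgebra.single ⟨Function.update u.1 i 0, fun l hl => ?_⟩ c,
    single_mem_supp _ _ (by simp), ?_⟩
  · by_cases h : l = i
    · subst h; simp
    · rw [Function.update_of_ne h]; exact u.2 l hl
  · rw [tX_pow, AddMonoidAlgebra.single_mul_single, one_mul]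
    congr 1
    ext l
    by_cases h : l = i
    · subst h; simp; omega
    · simp [h]

end Shift

theorem shiftEx (s1 : S1) : ShiftEx := by
  intro Λ σ _ _ _ tor i g hi hg
  have mk : ∀ g' : Tor Λ tor, ∃ s : Tor Λ tor →ₐ[Λ] Tor Λ tor, s (tX tor Λ i) = tX tor Λ i + g' ∧
      ∀ l, l ≠ i → s (tX tor Λ l) = tX tor Λ l := fun g' => by
    refine ⟨tlift tor (Function.update (tX tor Λ) i (tX tor Λ i + g')) (tXi tor Λ) fun l hl => ?_,
      by rw [tlift_tX, Function.update_self], fun l hl => by rw [tlift_tX, Function.update_of_ne hl]⟩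
    have hl' : l ≠ i := fun e => by rw [e, hi] at hl; exact Bool.false_ne_true hl
    rw [Function.update_of_ne hl']
    exact tX_mul_tXi tor l hl
  constructor
  · obtain ⟨s, s1, s2⟩ := mk g
    obtain ⟨t, t1, t2⟩ := mk (-g)
    refine ⟨AlgEquiv.ofAlgHom s t (tor_ext tor fun l => ?_) (tor_ext tor fun l => ?_), s1, s2⟩
    · by_cases hl : l = i
      · subst hl
        rw [AlgHom.comp_apply, t1, map_add, map_neg, s1, fix_free hi s2 hg, AlgHom.id_apply]
        ring
      · rw [AlgHom.comp_apply, t2 l hl, s2 l hl, AlgHom.id_apply]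
    · by_cases hl : l = i
      · subst hl
        rw [AlgHom.comp_apply, s1, map_add, t1, fix_free hi t2 hg, AlgHom.id_apply]
        ring
      · rw [AlgHom.comp_apply, s2 l hl, t2 l hl, AlgHom.id_apply]
  · intro p hp s hs1 hs2 hF z
    obtain ⟨-, -, -, f1, -, f2, -⟩ := s1 Λ σ tor
    have hgp : ∀ n : ℕ, g ^ n ∈ supp tor Λ fun u => u i = 0 := fun n => by
      induction n with
      | zero => rw [pow_zero]; exact single_mem_supp 0 1 rfl
      | succ n ih =>
        rw [pow_succ]
        exact supp_mul (fun u v hu hv => by rw [Pi.add_apply, hu, hv, add_zero]) ih hg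
    induction z using AddMonoidAlgebra.induction_linear with
    | zero => simp
    | add a b ha hb => simp only [map_add, ha, hb]
    | single u c =>
      obtain ⟨n, h, hh, e⟩ := mono_split hi u c
      obtain ⟨t, r, hr, rfl⟩ : ∃ t r, r < p ∧ n = p * t + r :=
        ⟨n / p, n % p, Nat.mod_lt _ hp, (Nat.div_add_mod n p).symm⟩
      have e1 : tX tor Λ i ^ (p * t + r) * h =
          phi0 tor Λ p (tX tor Λ i ^ t) * (tX tor Λ i ^ r * h) := by
        rw [map_pow, f1]; ring
      have e2 : s (tX tor Λ i ^ (p * t + r) * h) =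
          phi0 tor Λ p ((tX tor Λ i + g) ^ t) * ((tX tor Λ i + g) ^ r * h) := by
        rw [map_mul, map_pow, hs1, fix_free hi hs2 hh, map_pow, map_add, f1, ← hF]; ring
      rw [e, e2, e1, f2 p hp, f2 p hp, map_mul s, map_pow s, hs1]
      congr 1
      have e3 : psi0 tor Λ p ((tX tor Λ i + g) ^ r * h) = psi0 tor Λ p (tX tor Λ i ^ r * h) := by
        rw [add_pow, Finset.sum_mul, map_sum, Finset.sum_range_succ, Finset.sum_eq_zero]
        · simp
        · intro k hk
          have hk' := Finset.mem_range.1 hk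
          rw [show tX tor Λ i ^ k * g ^ (r - k) * (r.choose k : Tor Λ tor) * h =
            tX tor Λ i ^ k * (r.choose k • (g ^ (r - k) * h)) by rw [nsmul_eq_mul]; ring]
          exact psi0_low (by omega) (pow_mem k (nsmul_mem (supp_mul
            (fun u v hu hv => by rw [Pi.add_apply, hu, hv, add_zero]) (hgp _) hh) _))
      rw [e3]
      rcases Nat.lt_or_ge (r + 1) p with h1 | h1
      · rw [psi0_low h1 (pow_mem r hh), map_zero]
      · exact (fix_free hi hs2 (psi0_top (by omega) (pow_mem r hh))).symm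

end

end Pool.Agent.MP_ea150c_mp.H45
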