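import Pool.Agent.MP_ea150c_mp.H49.SpecG
import Pool.Agent.MP_ea150c_mp.H45.S1pShiftEx

/-! Koszul complexes in degrees zero and one. -/

namespace Pool.Agent.MP_ea150c_mp.H45

open Pool.Agent.MP_ea150c_mp.H49

noncomputable section

variable {I τ ι : Type} [DecidableEq I] [Fintype I] [Fintype τ] [DecidableEq τ]
  {M : Model I τ ι} {Λ : Type} [CommRing Λ]

omit [DecidableEq τ] in
theorem sum_wt (u : Var I τ → ℤ) : ∑ v, (M.wt u).1 v = ∑ x, u x := by
  have h : ∀ x : Var I τ, ∑ v, (M.wtv x).1 v = 1 := by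
    rintro (⟨v, t⟩ | t) <;> simp [Model.wtv]
  simp only [Model.wt, Prod.fst_sum, Finset.sum_apply, Prod.smul_fst, Pi.smul_apply, smul_eq_mul]
  rw [Finset.sum_comm]
  exact Finset.sum_congr rfl fun x _ => by rw [← Finset.mul_sum, h, mul_one]

theorem wt_single (x : Var I τ) : M.wt (Pi.single x 1) = M.wtv x := by
  rw [Model.wt, Finset.sum_eq_single x] <;> simp +contextual

omit [DecidableEq τ] in
theorem zp_le {w : Gam I} {N : Submodule Λ (Zr Λ I τ)}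
    (h : ∀ u : Mon (torV : Var I τ → Bool), (∀ x, 0 ≤ u.1 x) → M.wt u.1 = w →
      AddMonoidAlgebra.single u 1 ∈ N) : M.Zp Λ ∅ w ≤ N := fun z hz => by
  refine supp_ind (Q := fun z => z ∈ N) hz (zero_mem _) (fun _ _ => add_mem) fun u c hu _ => ?_
  rw [single_eq_smul]
  refine N.smul_mem c (h u (fun x => ?_) hu.2)
  cases hx : torV x
  · exact u.2 x hx
  · rcases x with ⟨v, t⟩ | t
    · obtain rfl : t = 0 := by simpa [torV] using hx
      exact hu.1 v (Finset.notMem_empty v)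
    · simp [torV] at hx

omit [DecidableEq τ] in
theorem deg0 {w : Gam I} {N : Submodule Λ (Zr Λ I τ)} (hw : w.1 = 0) (h : w = 0 → 1 ∈ N) :
    M.Zp Λ ∅ w ≤ N := zp_le fun u h0 hu => by
  have h1 : ∑ x, u.1 x = 0 := by rw [← sum_wt (M := M), hu, hw]; simp
  have h2 : u = 0 := Subtype.ext (funext fun x =>
    (Finset.sum_eq_zero_iff_of_nonneg fun x _ => h0 x).1 h1 x (Finset.mem_univ x))
  subst h2
  exact h (by rw [← hu]; simp [Model.wt])

theorem deg1 {w : Gam I} {N : Submodule Λ (Zr Λ I τ)} {v : I} (hw : w.1 = Pi.single v 1)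
    (h : ∀ x, M.wtv x = w → tX torV Λ x ∈ N) : M.Zp Λ ∅ w ≤ N := zp_le fun u h0 hu => by
  have h1 : ∑ x, u.1 x = 1 := by rw [← sum_wt (M := M), hu, hw]; simp
  obtain ⟨x, -, hx⟩ := Finset.exists_ne_zero_of_sum_ne_zero (h1 ▸ one_ne_zero : ∑ x, u.1 x ≠ 0)
  rw [← Finset.add_sum_erase _ _ (Finset.mem_univ x)] at h1
  have h2 : 0 ≤ ∑ y ∈ Finset.univ.erase x, u.1 y := Finset.sum_nonneg fun y _ => h0 y
  have h3 := h0 x
  have h4 := (Finset.sum_eq_zero_iff_of_nonneg (s := Finset.univ.erase x) fun y _ => h0 y).1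
    (by omega)
  have h5 : u.1 = Pi.single x 1 := funext fun y => by
    by_cases e : y = x
    · subst e; rw [Pi.single_eq_same]; omega
    · rw [Pi.single_eq_of_ne e]; exact h4 y (by simp [e])
  have h6 := h x (by rw [← wt_single, ← h5, hu])
  rw [tX, monoZ, dif_pos (single_mem torV x)] at h6
  obtain rfl : u = ⟨_, single_mem torV x⟩ := Subtype.ext h5
  exact h6

theorem smul_tX_inj (x : Var I τ) {c d : Λ} (h : c • tX torV Λ x = d • tX torV Λ x) : c = d := by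
  rw [tX, monoZ, dif_pos (single_mem torV x), ← single_eq_smul, ← single_eq_smul] at h
  simpa using congrArg (fun z : Zr Λ I τ => z.coeff ⟨_, single_mem torV x⟩) h

/-- degree one and dilation weight zero -/
theorem cls (hM : M.Good) {w : Gam I} {N : Submodule Λ (Zr Λ I τ)} (v : I) (hw : w.1 = Pi.single v 1)
    (h0 : w.2.1 = 0) (h : ∀ t : Fin 4, (if t = 0 ∨ t = 1 then -1 else 1) = w.2.2.1 →
      (if t = 0 ∨ t = 2 then -1 else 1) = w.2.2.2 → tX torV Λ (Sum.inl (v, t)) ∈ N) :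
    M.Zp Λ ∅ w ≤ N := deg1 hw fun x hx => by
  subst hx
  rcases x with ⟨v', t⟩ | t
  · obtain rfl : v' = v := by
      by_contra e
      have := congrFun hw v'
      simp [Model.wtv, e] at this
    exact h t rfl rfl
  · have h1 : M.dil t = 0 := h0
    rcases hM.dil t with e | e <;> omega

theorem cls1 (hM : M.Good) {w : Gam I} (v : I) (s : Fin 4) (hw : w.1 = Pi.single v 1)
    (h0 : w.2.1 = 0) (h1 : w.2.2.1 = if s = 0 ∨ s = 1 then -1 else 1)
    (h2 : w.2.2.2 = if s = 0 ∨ s = 2 then -1 else 1) {z : Zr Λ I τ} (hz : z ∈ M.Zp Λ ∅ w) :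
    ∃ c : Λ, c • tX torV Λ (Sum.inl (v, s)) = z :=
  Submodule.mem_span_singleton.1 (cls hM v hw h0 (fun t e1 e2 => by
    obtain rfl : t = s := by
      rw [h1] at e1
      rw [h2] at e2
      clear h1 h2
      revert t s
      decide
    exact Submodule.mem_span_singleton_self _) hz)

theorem cls0 (hM : M.Good) {w : Gam I} (v : I) (hw : w.1 = Pi.single v 1) (h0 : w.2.1 = 0)
    (h1 : w.2.2.1 = 3 ∨ w.2.2.2 = 3) : M.Zp Λ ∅ w ≤ ⊥ :=
  cls hM v hw h0 fun t e1 e2 => by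
    exfalso
    split_ifs at e1 e2 <;> omega

theorem kosW_bot {w : Gam I} (h0 : M.Zp Λ ∅ w ≤ ⊥) (h1 : M.Zp Λ ∅ (w - (0, 0, 2, 0)) ≤ ⊥)
    (h2 : M.Zp Λ ∅ (w - (0, 0, 0, 2)) ≤ ⊥) : M.KosW Λ w :=
  ⟨fun _ hz _ _ => h0 hz, fun _ a1 _ a2 _ => ⟨0, zero_mem _, by rw [map_zero]; exact (h1 a1).symm,
    by rw [map_zero]; exact (h2 a2).symm⟩⟩

theorem kosV_bot {w : Gam I} (h0 : M.Zp Λ ∅ w ≤ ⊥) (h1 : M.Zp Λ ∅ (w - (0, 0, 2, 0)) ≤ ⊥)
    (h2 : M.Zp Λ ∅ (w - (0, 0, 0, 2)) ≤ ⊥) (h3 : M.Zp Λ ∅ (w - (0, 0, 2, 2)) ≤ ⊥) :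
    M.KosV Λ w ⊥ :=
  ⟨kosW_bot h0 h1 h2, fun _ hh => bot_le (a := M.Ap Λ ∅ _) hh, fun _ hv =>
    ⟨0, zero_mem _, 0, zero_mem _, 0, zero_mem _, by simpa using h3 hv⟩⟩

end

theorem cv0 (cx : CX) : CV0 := by
  intro I τ ι _ _ _ _ _ _ M hM Λ _
  obtain ⟨-, -, -, x1, x2, -, -, -, -, hX, -⟩ := cx I τ ι M hM Λ
  have ne0 : ∀ w : Gam I, w.1 = 0 → (w.2.2.1 ≠ 0 ∨ w.2.2.2 ≠ 0) → M.Zp Λ ∅ w ≤ ⊥ :=
    fun w h1 h2 => deg0 h1 fun e => by subst e; simp at h2
  refine ⟨⟨kosW_bot (ne0 _ rfl (by simp)) (ne0 _ (by simp) (by simp)) (ne0 _ (by simp) (by simp)),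
    fun h hh => ?_, fun z hz => ?_⟩,
    kosV_bot (ne0 _ rfl (by simp)) (ne0 _ (by simp) (by simp)) (ne0 _ (by simp) (by simp))
      (ne0 _ (by simp) (by simp)),
    kosV_bot (ne0 _ rfl (by simp)) (ne0 _ (by simp) (by simp)) (ne0 _ (by simp) (by simp))
      (ne0 _ (by simp) (by simp)), fun v => ?_, fun t => ?_, fun δ e h => ?_⟩
  · obtain ⟨c, rfl⟩ := Submodule.mem_span_singleton.1 hh
    rw [sub_self]
    exact Submodule.smul_mem _ c (hX ∅).1
  · obtain ⟨c, rfl⟩ := Submodule.mem_span_singleton.1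
      (deg0 (by simp) (fun _ => Submodule.mem_span_singleton_self 1) hz)
    exact ⟨c • 1, Submodule.smul_mem _ c (Submodule.mem_span_singleton_self 1), 0, zero_mem _, 0,
      zero_mem _, by simp⟩
  · have b1 : xiZ Λ I τ (tX torV Λ (Sum.inl (v, 3))) = -tX torV Λ (Sum.inl (v, 1)) := by
      rw [x1]; simp
    have b2 : xiZ' Λ I τ (tX torV Λ (Sum.inl (v, 3))) = -tX torV Λ (Sum.inl (v, 2)) := by
      rw [x2]; simp
    have d1 : xiZ Λ I τ (tX torV Λ (Sum.inl (v, 2))) = tX torV Λ (Sum.inl (v, 0)) := by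
      rw [x1]; simp
    have a2 : xiZ' Λ I τ (tX torV Λ (Sum.inl (v, 1))) = tX torV Λ (Sum.inl (v, 0)) := by
      rw [x2]; simp
    have hb : ∀ (c : Λ) (w : Gam I), w = (Pi.single v 1, 0, 1, 1) →
        c • tX torV Λ (Sum.inl (v, 3)) ∈ M.Zp Λ ∅ w := fun c w e => by
      rw [e]
      exact Submodule.smul_mem _ c ((hX ∅).2 (Sum.inl (v, 3)))
    have zero : ∀ (c : Λ) (x : Var I τ), c • -tX torV Λ x = 0 → c = 0 := fun c x h =>
      smul_tX_inj x (by rw [zero_smul, ← neg_eq_zero, ← smul_neg, h])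
    refine ⟨⟨fun z hz h1 _ => ?_, fun z₁ h1 z₂ h2 h => ?_⟩,
      ⟨⟨fun z hz _ _ => cls0 hM v rfl rfl (by simp) hz, fun z₁ h1 z₂ h2 h => ?_⟩,
        fun _ hh => bot_le (a := M.Ap Λ ∅ _) hh, fun z hz => ?_⟩,
      ⟨⟨fun z hz _ _ => cls0 hM v rfl rfl (by simp) hz, fun z₁ h1 z₂ h2 h => ?_⟩,
        fun _ hh => bot_le (a := M.Ap Λ ∅ _) hh, fun z hz => ?_⟩,
      kosW_bot (cls0 hM v rfl rfl (by simp)) (cls0 hM v (by simp) (by simp) (by simp))
        (cls0 hM v (by simp) (by simp) (by simp))⟩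
    · obtain ⟨c, rfl⟩ := cls1 hM v 3 rfl rfl (by simp) (by simp) hz
      rw [map_smul, b1] at h1
      rw [zero c _ h1, zero_smul]
    · obtain ⟨c, rfl⟩ := cls1 hM v 1 (by simp) (by simp) (by simp) (by simp) h1
      obtain ⟨d, rfl⟩ := cls1 hM v 2 (by simp) (by simp) (by simp) (by simp) h2
      rw [map_smul, map_smul, a2, d1] at h
      obtain rfl := smul_tX_inj _ h
      exact ⟨_, hb (-c) _ rfl, by rw [map_smul, b1, neg_smul_neg], by rw [map_smul, b2, neg_smul_neg]⟩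
    · obtain rfl : z₁ = 0 := cls0 hM v (by simp) (by simp) (by simp) h1
      obtain ⟨c, rfl⟩ := cls1 hM v 3 (by simp) (by simp) (by simp) (by simp) h2
      rw [map_smul, map_zero, b1] at h
      exact ⟨0, zero_mem _, map_zero _, by rw [zero c _ h.symm, zero_smul, map_zero]⟩
    · obtain ⟨c, rfl⟩ := cls1 hM v 1 (by simp) (by simp) (by simp) (by simp) hz
      exact ⟨0, zero_mem _, 0, zero_mem _, _, hb c _ (by simp), by rw [map_smul, b1]; simp⟩
    · obtain rfl : z₂ = 0 := cls0 hM v (by simp) (by simp) (by simp) h2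
      obtain ⟨c, rfl⟩ := cls1 hM v 3 (by simp) (by simp) (by simp) (by simp) h1
      rw [map_smul, map_zero, b2] at h
      exact ⟨0, zero_mem _, by rw [zero c _ h, zero_smul, map_zero], map_zero _⟩
    · obtain ⟨c, rfl⟩ := cls1 hM v 2 (by simp) (by simp) (by simp) (by simp) hz
      exact ⟨0, zero_mem _, _, hb (-c) _ (by simp), 0, zero_mem _, by rw [map_smul, b2]; simp⟩
  · have two : ∀ w : Gam I, w.1 = Pi.single (M.vert t) 1 → (w.2.2.1 = 2 ∨ w.2.2.2 = 2) →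
        M.Zp Λ ∅ w ≤ ⊥ := fun w h1 h2 => deg1 h1 fun x hx => by
      subst hx
      exfalso
      rcases x with ⟨v, s⟩ | s
      · simp only [Model.wtv] at h2
        rcases h2 with h2 | h2 <;> split_ifs at h2 <;> omega
      · simp [Model.wtv] at h2
    exact kosW_bot (two _ rfl (by simp)) (two _ (by simp) (by simp)) (two _ (by simp) (by simp))
  · have no : ∀ w : Gam I, w.1 = δ → w.2.1 = e → M.Zp Λ ∅ w ≤ ⊥ := fun w h1 h2 =>
      zp_le fun u h0 hu => (h u.1 h0 (by rw [hu, h1]) (by rw [hu, h2])).elim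
    exact kosV_bot (no _ rfl rfl) (no _ (by simp) (by simp)) (no _ (by simp) (by simp))
      (no _ (by simp) (by simp))

end Pool.Agent.MP_ea150c_mp.H45
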