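import Pool.Agent.MP_ea150c_mp.H49.SpecV

/-! A potential exists if all circulations that avoid a vertex pair to zero. -/

namespace Pool.Agent.MP_ea150c_mp.H45

open Pool.Agent.MP_ea150c_mp.H49 SimpleGraph

noncomputable section

namespace VGAux

variable {I k : Type} [Field k] {H : SimpleGraph I}

/-- the sum of `τ` along a walk -/
def S (τ : I → I → k) : ∀ {u v : I}, H.Walk u v → k
  | _, _, .nil => 0
  | u, _, .cons (v := x) _ p => τ u x + S τ p

variable {τ : I → I → k}

theorem S_append {u v w : I} (p : H.Walk u v) (q : H.Walk v w) :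
    S τ (p.append q) = S τ p + S τ q := by
  induction p with
  | nil => simp [S]
  | cons h p ih => simp only [Walk.cons_append, S, ih, add_assoc]

theorem S_reverse (hτ : ∀ u v, H.Adj u v → τ u v + τ v u = 0) {u v : I} (p : H.Walk u v) :
    S τ p.reverse = -S τ p := by
  induction p with
  | nil => simp [S]
  | cons h p ih =>
    rw [Walk.reverse_cons, S_append, ih]
    simp only [S]
    linear_combination hτ _ _ h

variable [DecidableEq I]

/-- the flow of a walk -/
def fl (k : Type) [Field k] : ∀ {u v : I}, H.Walk u v → I → I → k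
  | _, _, .nil => fun _ _ => 0
  | u, _, .cons (v := x) _ p => fun a b =>
      ((if a = u then if b = x then 1 else 0 else 0) - if b = u then if a = x then 1 else 0 else 0) +
        fl k p a b

theorem fl_anti {u v : I} (p : H.Walk u v) (a b : I) : fl k p a b + fl k p b a = 0 := by
  induction p with
  | nil => simp [fl]
  | cons h p ih => simp only [fl]; linear_combination ih

theorem fl_supp {u v : I} (p : H.Walk u v) (a b : I) (h : fl k p a b ≠ 0) :
    H.Adj a b ∧ a ∈ p.support ∧ b ∈ p.support := by
  induction p with
  | nil => simp [fl] at h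
  | @cons u x _ hx p ih =>
    rw [Walk.support_cons, List.mem_cons, List.mem_cons]
    by_cases h1 : a = u ∧ b = x
    · obtain ⟨rfl, rfl⟩ := h1
      exact ⟨hx, Or.inl rfl, Or.inr p.start_mem_support⟩
    by_cases h2 : b = u ∧ a = x
    · obtain ⟨rfl, rfl⟩ := h2
      exact ⟨hx.symm, Or.inr p.start_mem_support, Or.inl rfl⟩
    simp only [fl, ← ite_and, if_neg h1, if_neg h2, sub_self, zero_add] at h
    exact ⟨(ih h).1, Or.inr (ih h).2.1, Or.inr (ih h).2.2⟩

variable [Fintype I]

theorem fl_div {u v : I} (p : H.Walk u v) (b : I) :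
    ∑ a, fl k p a b = (if b = v then 1 else 0) - if b = u then 1 else 0 := by
  induction p with
  | nil => simp [fl]
  | @cons u x _ hx p ih =>
    simp only [fl, Finset.sum_add_distrib, Finset.sum_sub_distrib, ih, Finset.sum_ite_eq',
      Finset.mem_univ, if_true]
    by_cases h : b = u <;> simp [h]

theorem fl_pair (hτ : ∀ u v, H.Adj u v → τ u v + τ v u = 0) {u v : I} (p : H.Walk u v) :
    ∑ a, ∑ b, fl k p a b * τ a b = 2 * S τ p := by
  induction p with
  | nil => simp [fl, S]
  | @cons u x _ hx p ih =>
    simp only [fl, S, add_mul, sub_mul, Finset.sum_add_distrib, Finset.sum_sub_distrib, ih, ite_mul,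
      one_mul, zero_mul, Finset.sum_ite_eq', Finset.mem_univ, if_true, Finset.sum_ite_irrel,
      Finset.sum_const_zero]
    linear_combination (-1 : k) * hτ _ _ hx

omit [Fintype I] in
theorem potential (hτ : ∀ u v, H.Adj u v → τ u v + τ v u = 0)
    (hA : ∀ (z u : I) (p : H.Walk u u), z ∉ p.support → S τ p = 0) (z : I)
    (hz : ∀ x y, ∃ w, H.Adj z w ∧ w ≠ x ∧ w ≠ y) :
    ∃ a : I → k, ∀ u v, H.Adj u v → τ u v = a u - a v := by
  have loop : ∀ (n : ℕ) (x y : I) (q : H.Walk x y), q.length = n → H.Adj z x → H.Adj y z →
      z ∉ q.support → τ z x + (S τ q + τ y z) = 0 := by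
    intro n
    induction n using Nat.strong_induction_on with
    | _ n ih =>
      intro x y q hq hx hy hs
      obtain ⟨w, hw, h1, h2⟩ := hz x y
      by_cases hm : w ∈ q.support
      · have e := q.take_spec hm
        have l1 := congrArg Walk.length e
        rw [Walk.length_append] at l1
        have l2 : (q.takeUntil w hm).length ≠ 0 := fun h => h1 (Walk.eq_of_length_eq_zero h).symm
        have l3 : (q.dropUntil w hm).length ≠ 0 := fun h => h2 (Walk.eq_of_length_eq_zero h)
        have a1 := ih _ (by omega) x w (q.takeUntil w hm) rfl hx hw.symm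
          fun h => hs (q.support_takeUntil_subset_support hm h)
        have a2 := ih _ (by omega) w y (q.dropUntil w hm) rfl hw hy
          fun h => hs (q.support_dropUntil_subset_support hm h)
        rw [← e, S_append]
        linear_combination a1 + a2 - hτ _ _ hw
      · have := hA w z (.cons hx (q.append (.cons hy .nil))) (by
          simp only [Walk.support_cons, List.mem_cons, Walk.mem_support_append_iff,
            Walk.support_nil, List.not_mem_nil, or_false, not_or]
          exact ⟨hw.ne', hm, h2, hw.ne'⟩)
        simpa only [S, S_append, add_zero] using this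
  have toz : ∀ {u e : I} (p : H.Walk u e), e = z → (u = z → S τ p = 0) ∧
      (u ≠ z → ∃ y, H.Adj y z ∧ ∃ q : H.Walk u y, z ∉ q.support ∧ S τ p = S τ q + τ y z) := by
    intro u e p he
    induction p with
    | nil => exact ⟨fun _ => rfl, fun h => (h he).elim⟩
    | @cons u x _ hx p ih =>
      obtain ⟨i1, i2⟩ := ih he
      refine ⟨fun hu => ?_, fun hu => ?_⟩
      · subst hu
        obtain ⟨y, hy, q, h1, h2⟩ := i2 hx.ne'
        rw [S, h2]
        exact loop _ x y q rfl hx hy h1
      · by_cases hxz : x = z
        · subst hxz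
          exact ⟨u, hx, .nil, by simpa using Ne.symm hu, by simp only [S, i1 rfl, add_comm]⟩
        · obtain ⟨y, hy, q, h1, h2⟩ := i2 hxz
          refine ⟨y, hy, .cons hx q, ?_, by rw [S, S, h2, add_assoc]⟩
          rw [Walk.support_cons, List.mem_cons, not_or]
          exact ⟨Ne.symm hu, h1⟩
  have closed : ∀ (u : I) (p : H.Walk u u), S τ p = 0 := by
    intro u p
    by_cases hm : z ∈ p.support
    · have := (toz ((p.dropUntil z hm).append (p.takeUntil z hm)) rfl).1 rfl
      rw [← p.take_spec hm, S_append, add_comm, ← S_append, this]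
    · exact hA z u p hm
  have ex : ∀ u : I, ∃ s : k, ∀ p : H.Walk u (H.connectedComponentMk u).out, S τ p = s := by
    intro u
    obtain ⟨q⟩ : H.Reachable u (H.connectedComponentMk u).out :=
      ConnectedComponent.exact (H.connectedComponentMk u).out_eq.symm
    refine ⟨S τ q, fun p => ?_⟩
    have := closed u (p.append q.reverse)
    rw [S_append, S_reverse hτ] at this
    linear_combination this
  choose a ha using ex
  refine ⟨a, fun u v h => ?_⟩
  have e : H.connectedComponentMk u = H.connectedComponentMk v :=
    ConnectedComponent.sound h.reachable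
  obtain ⟨q⟩ : H.Reachable v (H.connectedComponentMk v).out :=
    ConnectedComponent.exact (H.connectedComponentMk v).out_eq.symm
  have h1 := ha u
  rw [e] at h1
  rw [← h1 (.cons h q), ← ha v q, S, add_sub_cancel_right]

end VGAux

theorem third {I E : Type} [LinearOrder I] [Fintype I] [Fintype E] [DecidableEq E] {G : PG I E}
    (hG : G.Good) : ∃ z, ∀ x y, ∃ w, G.Adj z w ∧ w ≠ x ∧ w ≠ y := by
  obtain ⟨z, -, hz⟩ : ∃ z ∈ Finset.univ, z ∉ G.N0 :=
    Finset.exists_mem_notMem_of_card_lt_card (by
      rw [hG.card, Finset.card_univ]; exact hG.four)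
  refine ⟨z, fun x y => ?_⟩
  by_contra hc
  have hd := hG.reg z
  rw [if_neg hz, add_zero, PG.deg, ← Finset.card_union_of_disjoint (Finset.disjoint_left.2
    fun e h1 h2 => hG.noloop e ((Finset.mem_filter.1 h1).2.trans (Finset.mem_filter.1 h2).2.symm))] at hd
  have key : ∀ e ∈ (Finset.univ.filter fun e => G.src e = some z) ∪
      (Finset.univ.filter fun e => G.tgt e = some z),
      s(G.src e, G.tgt e) = s(some z, if G.src e = some z then G.tgt e else G.src e) := by
    intro e he
    split_ifs with h
    · rw [h]
    · rcases Finset.mem_union.1 he with h1 | h1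
      · exact (h (Finset.mem_filter.1 h1).2).elim
      · rw [(Finset.mem_filter.1 h1).2, Sym2.eq_swap]
  have hle := Finset.card_le_card_of_injOn (t := ({none, some x, some y} : Finset (Option I)))
    (fun e => if G.src e = some z then G.tgt e else G.src e) (fun e he => by
      have h1 := key e he
      beta_reduce
      generalize (if G.src e = some z then G.tgt e else G.src e) = o at h1
      cases o with
      | none => simp
      | some w =>
        have ha : G.Adj z w := ⟨e, by
          rcases Sym2.eq_iff.1 h1 with h | h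
          · exact Or.inl h
          · exact Or.inr h⟩
        by_contra hn
        exact hc ⟨w, ha, fun e => hn (by simp [e]), fun e => hn (by simp [e])⟩)
    fun e he e' he' h => hG.simple e e' (by rw [key e he, key e' he']; exact congrArg _ h)
  have := hle.trans Finset.card_le_three
  omega

open VGAux in
theorem vg : VG := by
  intro I E _ _ _ _ G hG k _ h2 τ hτ hφ
  let H : SimpleGraph I := ⟨G.Adj, ⟨fun u v ⟨e, h⟩ => ⟨e, h.symm⟩⟩, ⟨fun u ⟨e, h⟩ =>
    hG.noloop e (h.elim (fun h => h.1.trans h.2.symm) fun h => h.1.trans h.2.symm)⟩⟩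
  obtain ⟨z, hz⟩ := third hG
  refine potential (H := H) hτ (fun z u p hp => ?_) z hz
  have := hφ z (fl k p) (fl_anti p) (fun a b h => ⟨(fl_supp p a b h).1,
    fun e => hp (e ▸ (fl_supp p a b h).2.1), fun e => hp (e ▸ (fl_supp p a b h).2.2)⟩)
    fun b => by rw [fl_div, sub_self]
  rw [fl_pair (H := H) hτ] at this
  exact (mul_eq_zero.1 this).resolve_left h2

end

end Pool.Agent.MP_ea150c_mp.H45
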